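import Mathlib

/-! Powers of a tridiagonal operator that agrees with a given operator in low degrees. -/

set_option autoImplicit false

namespace Pool.Agent.P.MP_f981b0_an.IS78

variable {R : Type*} [NormedRing R]

/-- Low degrees: the two operators have the same powers. -/
theorem pow_mul_low (A B : R) (p : ℕ → R) (D : ℕ) (hup : ∀ m, p (m + 1) * (A * p m) = A * p m)
    (hAB : ∀ m, m < D → A * p m = B * p m) (l m : ℕ) (h : m + l ≤ D) :
    A ^ l * p m = B ^ l * p m := by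
  induction l generalizing m with
  | zero => simp
  | succ l ih =>
    rw [pow_succ, pow_succ, mul_assoc, mul_assoc, ← hAB m (by omega), ← hup m, ← mul_assoc,
      ih (m + 1) (by omega), mul_assoc]

/-- High degrees: every factor is small. -/
theorem norm_pow_high (A : R) (p : ℕ → R) {c : ℝ} (N : ℕ) (h1 : ∀ m, ‖1 - p m‖ ≤ 1)
    (hdn : ∀ m, (1 - p m) * (A * (1 - p (m + 1))) = A * (1 - p (m + 1)))
    (hc : ∀ m, N ≤ m → ‖A * (1 - p m)‖ ≤ c) (l m : ℕ) (h : N + l ≤ m) :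
    ‖A ^ l * (1 - p m)‖ ≤ c ^ l := by
  have hc0 : 0 ≤ c := (norm_nonneg _).trans (hc N le_rfl)
  induction l generalizing m with
  | zero => simpa using h1 m
  | succ l ih =>
    obtain ⟨m, rfl⟩ : ∃ m', m = m' + 1 := ⟨m - 1, by omega⟩
    rw [pow_succ, mul_assoc, ← hdn m, ← mul_assoc, pow_succ]
    exact (norm_mul_le _ _).trans
      (mul_le_mul (ih m (by omega)) (hc _ (by omega)) (norm_nonneg _) (pow_nonneg hc0 _))

/-- The degree split of (G1). -/
theorem norm_pow_le (A B : R) (p : ℕ → R) {c : ℝ} (D N : ℕ) (hD : 3 * N ≤ D)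
    (h0 : ∀ m, ‖p m‖ ≤ 1) (h1 : ∀ m, ‖1 - p m‖ ≤ 1)
    (hup : ∀ m, p (m + 1) * (A * p m) = A * p m)
    (hdn : ∀ m, (1 - p m) * (A * (1 - p (m + 1))) = A * (1 - p (m + 1)))
    (hAB : ∀ m, m < D → A * p m = B * p m) (hc : ∀ m, N ≤ m → ‖A * (1 - p m)‖ ≤ c) :
    ‖A ^ N‖ ≤ ‖B ^ N‖ + c ^ N := by
  have e : A ^ N = B ^ N * p (2 * N) + A ^ N * (1 - p (2 * N)) := by
    rw [← pow_mul_low A B p D hup hAB N (2 * N) (by omega), ← mul_add, add_sub_cancel, mul_one]
  conv_lhs => rw [e]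
  refine (norm_add_le _ _).trans (add_le_add ?_ (norm_pow_high A p N h1 hdn hc N _ (by omega)))
  exact (norm_mul_le _ _).trans (mul_le_of_le_one_right (norm_nonneg _) (h0 _))

end Pool.Agent.P.MP_f981b0_an.IS78
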